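import Pool.Agent.Helper553_BL.Geo

/-!
# Counting sets that contain no cut subfamily of size `k`
-/

set_option autoImplicit false

namespace Pool.Agent.Helper553_BL

open Filter Topology

/-- `W` contains no `k` members of the family that are cut out by an ellipse. -/
def Indep {ι : Type} (k : ℕ) (P : ι → ℝ × ℝ) (W : Finset ι) : Prop :=
  ∀ S : Finset ι, S.card = k → Cut P S → ¬ S ⊆ W

open Classical in
/-- The generating function of the independent sets. -/
noncomputable def Z {ι : Type} [Fintype ι] (k : ℕ) (P : ι → ℝ × ℝ) (t : ℝ) : ℝ :=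
  ∑ W : Finset ι, if Indep k P W then t ^ W.card else 0

/-- The permutation `σ` sends `k` members of `R` to the smallest `k` values. -/
def Good {ρ : ℕ} (k : ℕ) (σ : Equiv.Perm (Fin ρ)) (R : Finset (Fin ρ)) : Prop :=
  ∀ c : Fin ρ, (σ c : ℕ) < k → c ∈ R

lemma exists_perm {ρ k : ℕ} (e g : Fin k → Fin ρ) (he : Function.Injective e)
    (hg : Function.Injective g) : ∃ σ : Equiv.Perm (Fin ρ), ∀ j, σ (e j) = g j := by
  classical
  let E : {x // x ∈ Set.range e} ≃ {x // x ∈ Set.range g} :=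
    (Equiv.ofInjective e he).symm.trans (Equiv.ofInjective g hg)
  refine ⟨E.extendSubtype, fun j => ?_⟩
  rw [Equiv.extendSubtype_apply_of_mem E (e j) (Set.mem_range_self j)]
  have : (⟨e j, Set.mem_range_self j⟩ : {x // x ∈ Set.range e}) = Equiv.ofInjective e he j := rfl
  simp only [E, this, Equiv.trans_apply, Equiv.symm_apply_apply]
  rfl

lemma exists_good {ρ k : ℕ} (R : Finset (Fin ρ)) (hR : k ≤ R.card) :
    ∃ σ : Equiv.Perm (Fin ρ), Good k σ R := by
  have hρ : k ≤ ρ := hR.trans (by simpa using R.card_le_univ)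
  set e := R.orderEmbOfCardLe hR with he
  have hmem : ∀ j, e j ∈ R := fun j => Finset.orderEmbOfCardLe_mem R hR j
  let g : Fin k → Fin ρ := fun j => Fin.castLE hρ j
  have hg : Function.Injective g := Fin.castLE_injective hρ
  obtain ⟨σ, hσ⟩ := exists_perm e g e.injective hg
  refine ⟨σ, fun c hc => ?_⟩
  have h1 : σ (e ⟨(σ c : ℕ), hc⟩) = σ c := by
    rw [hσ]
    rfl
  have h2 := σ.injective h1
  rw [← h2]
  exact hmem _

open Classical in
lemma count_bad {ρ k : ℕ} {θ : ℝ} (h0 : 0 < θ) (h1 : θ ≤ 1)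
    (hθ : 1 - 1 / (Nat.factorial ρ : ℝ) ≤ θ ^ ρ) (R : Finset (Fin ρ)) :
    θ ^ k * ((Finset.univ.filter fun σ : Equiv.Perm (Fin ρ) => ¬ Good k σ R).card : ℝ)
      ≤ (Nat.factorial ρ : ℝ) * θ ^ R.card := by
  have hfac : (0 : ℝ) < (Nat.factorial ρ : ℝ) := by exact_mod_cast Nat.factorial_pos ρ
  have hcard : Fintype.card (Equiv.Perm (Fin ρ)) = Nat.factorial ρ := by
    rw [Fintype.card_perm, Fintype.card_fin]
  by_cases hR : R.card ≤ k
  · have h2 : θ ^ k ≤ θ ^ R.card := pow_le_pow_of_le_one h0.le h1 hR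
    have h3 : ((Finset.univ.filter fun σ : Equiv.Perm (Fin ρ) => ¬ Good k σ R).card : ℝ)
        ≤ (Nat.factorial ρ : ℝ) := by
      rw [← hcard]
      exact_mod_cast Finset.card_le_univ _
    calc θ ^ k * ((Finset.univ.filter fun σ : Equiv.Perm (Fin ρ) => ¬ Good k σ R).card : ℝ)
        ≤ θ ^ R.card * (Nat.factorial ρ : ℝ) := by gcongr
      _ = _ := by ring
  · push Not at hR
    obtain ⟨σ, hσ⟩ := exists_good R hR.le
    have h3 : (Finset.univ.filter fun σ : Equiv.Perm (Fin ρ) => ¬ Good k σ R).card + 1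
        ≤ Nat.factorial ρ := by
      rw [← hcard, ← Finset.card_univ, Nat.succ_le_iff]
      refine Finset.card_lt_card ?_
      rw [Finset.filter_ssubset]
      exact ⟨σ, Finset.mem_univ _, not_not.2 hσ⟩
    have h3' : ((Finset.univ.filter fun σ : Equiv.Perm (Fin ρ) => ¬ Good k σ R).card : ℝ)
        ≤ (Nat.factorial ρ : ℝ) - 1 := by
      have : ((Finset.univ.filter fun σ : Equiv.Perm (Fin ρ) => ¬ Good k σ R).card : ℝ) + 1
          ≤ (Nat.factorial ρ : ℝ) := by exact_mod_cast h3
      linarith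
    have h4 : R.card ≤ ρ := by simpa using R.card_le_univ
    have h5 : θ ^ ρ ≤ θ ^ R.card := pow_le_pow_of_le_one h0.le h1 h4
    have h6 : θ ^ k ≤ 1 := pow_le_one₀ h0.le h1
    have h7 : (0 : ℝ) ≤ ((Finset.univ.filter fun σ : Equiv.Perm (Fin ρ) => ¬ Good k σ R).card : ℝ) :=
      Nat.cast_nonneg _
    calc θ ^ k * ((Finset.univ.filter fun σ : Equiv.Perm (Fin ρ) => ¬ Good k σ R).card : ℝ)
        ≤ 1 * ((Nat.factorial ρ : ℝ) - 1) := mul_le_mul h6 h3' h7 zero_le_one
      _ = (Nat.factorial ρ : ℝ) * (1 - 1 / (Nat.factorial ρ : ℝ)) := by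
          field_simp
      _ ≤ (Nat.factorial ρ : ℝ) * θ ^ R.card := by
          exact mul_le_mul_of_nonneg_left (hθ.trans h5) hfac.le

section

variable {ι : Type} [Fintype ι] {ρ : ℕ}

open Classical in
/-- The part of `W` in column `c`. -/
noncomputable def colS (W : Finset (Fin ρ × ι)) (c : Fin ρ) : Finset ι :=
  Finset.univ.filter fun i => (c, i) ∈ W

open Classical in
/-- The part of `W` in row `i`. -/
noncomputable def rowS (W : Finset (Fin ρ × ι)) (i : ι) : Finset (Fin ρ) :=
  Finset.univ.filter fun c => (c, i) ∈ W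

lemma mem_colS {W : Finset (Fin ρ × ι)} {c : Fin ρ} {i : ι} : i ∈ colS W c ↔ (c, i) ∈ W := by
  simp [colS]

lemma mem_rowS {W : Finset (Fin ρ × ι)} {c : Fin ρ} {i : ι} : c ∈ rowS W i ↔ (c, i) ∈ W := by
  simp [rowS]

lemma card_eq_sum_row (W : Finset (Fin ρ × ι)) : W.card = ∑ i, (rowS W i).card := by
  classical
  have h1 : W.card = ∑ q : Fin ρ × ι, if q ∈ W then 1 else 0 := by
    rw [Finset.sum_boole, Finset.filter_mem_eq_inter, Finset.univ_inter]
    rfl
  rw [h1, Fintype.sum_prod_type_right]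
  refine Finset.sum_congr rfl fun i _ => ?_
  unfold rowS
  rw [Finset.card_filter]

lemma card_eq_sum_col (W : Finset (Fin ρ × ι)) : W.card = ∑ c, (colS W c).card := by
  classical
  have h1 : W.card = ∑ q : Fin ρ × ι, if q ∈ W then 1 else 0 := by
    rw [Finset.sum_boole, Finset.filter_mem_eq_inter, Finset.univ_inter]
    rfl
  rw [h1, Fintype.sum_prod_type]
  refine Finset.sum_congr rfl fun i _ => ?_
  unfold colS
  rw [Finset.card_filter]

open Classical in
/-- Sets in the product are families of columns. -/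
noncomputable def colEquiv : Finset (Fin ρ × ι) ≃ (Fin ρ → Finset ι) where
  toFun W c := colS W c
  invFun g := Finset.univ.filter fun q => q.2 ∈ g q.1
  left_inv W := by
    ext q
    simp [colS]
  right_inv g := by
    funext c
    ext i
    simp [colS]

open Classical in
lemma sum_col (k : ℕ) (P : ι → ℝ × ℝ) (s : ℝ) :
    (∑ W : Finset (Fin ρ × ι), if (∀ c, Indep k P (colS W c)) then s ^ W.card else 0)
      = (Z k P s) ^ ρ := by
  unfold Z
  rw [Fintype.sum_pow]
  refine Fintype.sum_equiv colEquiv _ _ fun W => ?_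
  by_cases h : ∀ c, Indep k P (colS W c)
  · rw [if_pos h, card_eq_sum_col, ← Finset.prod_pow_eq_pow_sum]
    refine Finset.prod_congr rfl fun c _ => ?_
    show s ^ (colS W c).card = if Indep k P (colS W c) then s ^ (colS W c).card else 0
    rw [if_pos (h c)]
  · rw [if_neg h]
    push Not at h
    obtain ⟨c, hc⟩ := h
    symm
    refine Finset.prod_eq_zero (Finset.mem_univ c) ?_
    show (if Indep k P (colS W c) then s ^ (colS W c).card else 0) = 0
    rw [if_neg hc]

open Classical in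
lemma count_pi {k : ℕ} {θ : ℝ} (h0 : 0 < θ) (h1 : θ ≤ 1)
    (hθ : 1 - 1 / (Nat.factorial ρ : ℝ) ≤ θ ^ ρ) (W : Finset (Fin ρ × ι)) :
    θ ^ (k * Fintype.card ι) * ((Finset.univ.filter fun π : ι → Equiv.Perm (Fin ρ) =>
      ∀ i, ¬ Good k (π i) (rowS W i)).card : ℝ)
      ≤ (Nat.factorial ρ : ℝ) ^ (Fintype.card ι) * θ ^ W.card := by
  have h2 : (Finset.univ.filter fun π : ι → Equiv.Perm (Fin ρ) => ∀ i, ¬ Good k (π i) (rowS W i))
      = Fintype.piFinset fun i => Finset.univ.filter fun σ => ¬ Good k σ (rowS W i) := by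
    ext π
    simp [Fintype.mem_piFinset]
  rw [h2, Fintype.card_piFinset, card_eq_sum_row, ← Finset.prod_pow_eq_pow_sum, pow_mul]
  push_cast
  have h3 : ∀ x : ℝ, x ^ Fintype.card ι = ∏ _i : ι, x := by
    intro x
    rw [Finset.prod_const, Finset.card_univ]
  rw [h3, h3 (Nat.factorial ρ : ℝ), ← Finset.prod_mul_distrib, ← Finset.prod_mul_distrib]
  refine Finset.prod_le_prod (fun i _ => by positivity) fun i _ => ?_
  exact count_bad h0 h1 hθ _

/-- The recursive step. -/
theorem step_bound {k : ℕ} (hk : 1 ≤ k) (hkρ : k ≤ ρ) {θ : ℝ} (h0 : 0 < θ) (h1 : θ ≤ 1)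
    (hθ : 1 - 1 / (Nat.factorial ρ : ℝ) ≤ θ ^ ρ) (P : ι → ℝ × ℝ)
    (hP : Function.Injective fun i => (P i).2) {t : ℝ} (ht : 0 < t) :
    ∃ P' : Fin ρ × ι → ℝ × ℝ, (Function.Injective fun q => (P' q).2) ∧
      θ ^ (k * Fintype.card ι) * Z k P' t ≤ (Z k P (t * θ)) ^ ρ := by
  classical
  -- the sets cut out in rows
  set low : (ι → Equiv.Perm (Fin ρ)) → ι → Finset (Fin ρ × ι) := fun π i =>
    Finset.univ.filter fun q => q.2 = i ∧ (π i q.1 : ℕ) < k with hlow
  have hlowcard : ∀ π i, (low π i).card = k := by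
    intro π i
    have h : low π i = (Finset.univ : Finset (Fin k)).map
        ⟨fun j => ((π i).symm (Fin.castLE hkρ j), i), by
          intro a b hab
          have h1 := (Prod.mk.inj hab).1
          exact Fin.castLE_injective hkρ ((π i).symm.injective h1)⟩ := by
      ext ⟨c, i'⟩
      simp only [hlow, Finset.mem_filter, Finset.mem_univ, true_and, Finset.mem_map,
        Function.Embedding.coeFn_mk, Prod.mk.injEq]
      constructor
      · rintro ⟨rfl, h⟩
        refine ⟨⟨(π i' c : ℕ), h⟩, ?_, rfl⟩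
        rw [Equiv.symm_apply_eq]
        rfl
      · rintro ⟨j, h, rfl⟩
        refine ⟨rfl, ?_⟩
        rw [← h, Equiv.apply_symm_apply]
        exact j.2
    rw [h, Finset.card_map, Finset.card_univ, Fintype.card_fin]
  -- choose the scale
  have hε : ∀ π : ι → Equiv.Perm (Fin ρ), ∃ ε : ℝ,
      (Function.Injective fun q => (step P π ε q).2) ∧
      (∀ (S : Finset ι), Cut P S → ∀ c : Fin ρ, Cut (step P π ε)
        (S.map ⟨fun i => (c, i), fun _ _ h => by simpa using h⟩)) ∧
      (∀ i : ι, Cut (step P π ε) (low π i)) := by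
    intro π
    have e1 := inj_step P π hP
    have e2 : ∀ᶠ ε in 𝓝[>] (0 : ℝ), ∀ (S : Finset ι), Cut P S → ∀ c : Fin ρ,
        Cut (step P π ε) (S.map ⟨fun i => (c, i), fun _ _ h => by simpa using h⟩) := by
      rw [eventually_all]
      intro S
      by_cases hS : Cut P S
      · have : ∀ᶠ ε in 𝓝[>] (0 : ℝ), ∀ c : Fin ρ,
            Cut (step P π ε) (S.map ⟨fun i => (c, i), fun _ _ h => by simpa using h⟩) := by
          rw [eventually_all]
          intro c
          exact cut_col P π S hS c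
        filter_upwards [this] with ε h _
        exact h
      · exact Eventually.of_forall fun ε h => absurd h hS
    have e3 : ∀ᶠ ε in 𝓝[>] (0 : ℝ), ∀ i : ι, Cut (step P π ε) (low π i) := by
      rw [eventually_all]
      intro i
      refine cut_row hk P π hP i _ fun q => ?_
      simp [hlow]
    exact (e1.and (e2.and e3)).exists
  choose ε hinj hcol hrow using hε
  have hind : ∀ (π : ι → Equiv.Perm (Fin ρ)) (W : Finset (Fin ρ × ι)),
      Indep k (step P π (ε π)) W →
      (∀ c, Indep k P (colS W c)) ∧ ∀ i, ¬ Good k (π i) (rowS W i) := by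
    intro π W hW
    refine ⟨fun c S hSk hS hSW => ?_, fun i hg => ?_⟩
    · refine hW _ (by rw [Finset.card_map]; exact hSk) (hcol π S hS c) fun q hq => ?_
      rw [Finset.mem_map] at hq
      obtain ⟨i, hi, rfl⟩ := hq
      exact mem_colS.1 (hSW hi)
    · refine hW _ (hlowcard π i) (hrow π i) fun q hq => ?_
      simp only [hlow, Finset.mem_filter, Finset.mem_univ, true_and] at hq
      obtain ⟨h1, h2⟩ := hq
      have h3 := mem_rowS.1 (hg q.1 h2)
      rw [← h1] at h3
      exact h3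
  by_contra hcon
  push Not at hcon
  have hlt : ∀ π : ι → Equiv.Perm (Fin ρ), (Z k P (t * θ)) ^ ρ
      < θ ^ (k * Fintype.card ι) * Z k (step P π (ε π)) t := fun π => hcon _ (hinj π)
  have hsum : ∑ _π : ι → Equiv.Perm (Fin ρ), (Z k P (t * θ)) ^ ρ
      < ∑ π : ι → Equiv.Perm (Fin ρ), θ ^ (k * Fintype.card ι) * Z k (step P π (ε π)) t :=
    Finset.sum_lt_sum_of_nonempty Finset.univ_nonempty fun π _ => hlt π
  have hcard : Fintype.card (ι → Equiv.Perm (Fin ρ)) = (Nat.factorial ρ) ^ Fintype.card ι := by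
    rw [Fintype.card_fun, Fintype.card_perm, Fintype.card_fin]
  rw [Finset.sum_const, Finset.card_univ, hcard, nsmul_eq_mul] at hsum
  push_cast at hsum
  refine absurd hsum (not_lt.2 ?_)
  have hterm : ∀ (π : ι → Equiv.Perm (Fin ρ)), Z k (step P π (ε π)) t
      ≤ ∑ W : Finset (Fin ρ × ι), (if (∀ c, Indep k P (colS W c)) then t ^ W.card else 0) *
        (if (∀ i, ¬ Good k (π i) (rowS W i)) then 1 else 0) := by
    intro π
    unfold Z
    refine Finset.sum_le_sum fun W _ => ?_
    by_cases hW : Indep k (step P π (ε π)) W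
    · obtain ⟨h1, h2⟩ := hind π W hW
      rw [if_pos hW, if_pos h1, if_pos h2, mul_one]
    · rw [if_neg hW]
      positivity
  calc ∑ π : ι → Equiv.Perm (Fin ρ), θ ^ (k * Fintype.card ι) * Z k (step P π (ε π)) t
      ≤ ∑ π : ι → Equiv.Perm (Fin ρ), θ ^ (k * Fintype.card ι) *
        ∑ W : Finset (Fin ρ × ι), (if (∀ c, Indep k P (colS W c)) then t ^ W.card else 0) *
        (if (∀ i, ¬ Good k (π i) (rowS W i)) then 1 else 0) := by
        refine Finset.sum_le_sum fun π _ => ?_
        exact mul_le_mul_of_nonneg_left (hterm π) (by positivity)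
    _ = ∑ W : Finset (Fin ρ × ι), (if (∀ c, Indep k P (colS W c)) then t ^ W.card else 0) *
        (θ ^ (k * Fintype.card ι) * ((Finset.univ.filter fun π : ι → Equiv.Perm (Fin ρ) =>
      ∀ i, ¬ Good k (π i) (rowS W i)).card : ℝ)) := by
        rw [← Finset.mul_sum, Finset.sum_comm, Finset.mul_sum]
        refine Finset.sum_congr rfl fun W _ => ?_
        rw [← Finset.mul_sum, Finset.sum_boole]
        ring
    _ ≤ ∑ W : Finset (Fin ρ × ι), (if (∀ c, Indep k P (colS W c)) then t ^ W.card else 0) *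
        ((Nat.factorial ρ : ℝ) ^ (Fintype.card ι) * θ ^ W.card) := by
        refine Finset.sum_le_sum fun W _ => ?_
        refine mul_le_mul_of_nonneg_left (count_pi h0 h1 hθ W) ?_
        positivity
    _ = (Nat.factorial ρ : ℝ) ^ (Fintype.card ι) *
        ∑ W : Finset (Fin ρ × ι), (if (∀ c, Indep k P (colS W c)) then (t * θ) ^ W.card else 0) := by
        rw [Finset.mul_sum]
        refine Finset.sum_congr rfl fun W _ => ?_
        split_ifs
        · rw [mul_pow]; ring
        · ring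
    _ = (Nat.factorial ρ : ℝ) ^ (Fintype.card ι) * (Z k P (t * θ)) ^ ρ := by
        rw [sum_col]

end

/-- The planar families. -/
theorem exists_family {k : ℕ} (hk : 1 ≤ k) (ρ : ℕ) (hkρ : k ≤ ρ) {θ : ℝ} (h0 : 0 < θ) (h1 : θ ≤ 1)
    (hθ : 1 - 1 / (Nat.factorial ρ : ℝ) ≤ θ ^ ρ) (K : ℕ) :
    ∀ t : ℝ, 0 < t → ∃ (ι : Type) (_ : Fintype ι) (P : ι → ℝ × ℝ),
      (Function.Injective fun i => (P i).2) ∧ Fintype.card ι = ρ ^ K ∧
      θ ^ (k * K * ρ ^ (K - 1)) * Z k P t ≤ (1 + t * θ ^ K) ^ (ρ ^ K) := by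
  classical
  induction K with
  | zero =>
    intro t ht
    refine ⟨Unit, inferInstance, fun _ => (0, 0), fun _ _ _ => rfl, by simp, ?_⟩
    have hZ : Z k (fun _ : Unit => ((0 : ℝ), (0 : ℝ))) t ≤ 1 + t := by
      unfold Z
      calc (∑ W : Finset Unit, if Indep k (fun _ : Unit => ((0 : ℝ), (0 : ℝ))) W then t ^ W.card else 0)
          ≤ ∑ W : Finset Unit, t ^ W.card := by
            refine Finset.sum_le_sum fun W _ => ?_
            split_ifs
            · exact le_rfl
            · positivity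
        _ = 1 + t := by
            have : (Finset.univ : Finset (Finset Unit)) = {∅, {()}} := by decide
            rw [this, Finset.sum_pair (by decide)]
            simp
    simpa using hZ
  | succ K ih =>
    intro t ht
    obtain ⟨ι, _, P, hP, hcard, hZ⟩ := ih (t * θ) (by positivity)
    obtain ⟨P', hP', hZ'⟩ := step_bound hk hkρ h0 h1 hθ P hP ht
    refine ⟨Fin ρ × ι, inferInstance, P', hP', by simp [hcard, pow_succ, mul_comm], ?_⟩
    have hZnn : 0 ≤ Z k P (t * θ) := by
      unfold Z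
      refine Finset.sum_nonneg fun W _ => ?_
      positivity
    have e1 : k * (K + 1) * ρ ^ (K + 1 - 1) = k * K * ρ ^ (K - 1) * ρ + k * Fintype.card ι := by
      rw [hcard, Nat.add_sub_cancel]
      rcases Nat.eq_zero_or_pos K with h | h
      · subst h; simp
      · obtain ⟨j, rfl⟩ := Nat.exists_eq_add_of_lt h
        simp only [zero_add, Nat.add_sub_cancel]
        ring
    calc θ ^ (k * (K + 1) * ρ ^ (K + 1 - 1)) * Z k P' t
        = (θ ^ (k * K * ρ ^ (K - 1))) ^ ρ * (θ ^ (k * Fintype.card ι) * Z k P' t) := by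
          rw [e1, pow_add, pow_mul]; ring
      _ ≤ (θ ^ (k * K * ρ ^ (K - 1))) ^ ρ * (Z k P (t * θ)) ^ ρ :=
          mul_le_mul_of_nonneg_left hZ' (by positivity)
      _ = (θ ^ (k * K * ρ ^ (K - 1)) * Z k P (t * θ)) ^ ρ := by rw [mul_pow]
      _ ≤ ((1 + t * θ * θ ^ K) ^ (ρ ^ K)) ^ ρ :=
          pow_le_pow_left₀ (by positivity) hZ ρ
      _ = (1 + t * θ ^ (K + 1)) ^ (ρ ^ (K + 1)) := by
          rw [← pow_mul, pow_succ ρ K, pow_succ θ K]
          ring_nf

end Pool.Agent.Helper553_BL
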