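import Pool.Agent.Helper553_BL.Count

/-!
# Planar families in which every dense set contains a cut subfamily of size `k`
-/

set_option autoImplicit false

namespace Pool.Agent.Helper553_BL

open Filter Topology

theorem exists_dense_family {k : ℕ} (hk : 1 ≤ k) {δ : ℝ} (hδ : 0 < δ) (N : ℕ) :
    ∃ (ι : Type) (_ : Fintype ι) (P : ι → ℝ × ℝ),
      (Function.Injective fun i => (P i).2) ∧ N ≤ Fintype.card ι ∧
      ∀ W : Finset ι, Indep k P W → (W.card : ℝ) < δ * Fintype.card ι := by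
  classical
  obtain ⟨ρ₀, hρ₀⟩ := exists_nat_ge (((k : ℝ) + 1) / δ)
  set ρ : ℕ := ρ₀ + 2 + k with hρdef
  have hρ2 : 2 ≤ ρ := by omega
  have hρpos : (0 : ℝ) < ρ := by exact_mod_cast (by omega : 0 < ρ)
  have hρδ : (k : ℝ) + 1 ≤ δ * ρ := by
    have h1 : (k : ℝ) + 1 ≤ δ * ρ₀ := by
      rw [div_le_iff₀ hδ] at hρ₀
      linarith
    have h2 : (ρ : ℝ) = ρ₀ + 2 + k := by rw [hρdef]; push_cast; ring
    have h3 : (0 : ℝ) ≤ k := Nat.cast_nonneg k
    rw [h2]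
    nlinarith
  have hfac : (1 : ℝ) ≤ (Nat.factorial ρ : ℝ) := by exact_mod_cast Nat.factorial_pos ρ
  set θ : ℝ := 1 + -(1 / ((ρ : ℝ) * (Nat.factorial ρ : ℝ))) with hθdef
  have hprod : (2 : ℝ) ≤ (ρ : ℝ) * (Nat.factorial ρ : ℝ) := by
    have : (2 : ℝ) ≤ ρ := by exact_mod_cast hρ2
    nlinarith
  have hinv : 1 / ((ρ : ℝ) * (Nat.factorial ρ : ℝ)) ≤ 1 / 2 :=
    one_div_le_one_div_of_le (by norm_num) hprod
  have hinv0 : 0 < 1 / ((ρ : ℝ) * (Nat.factorial ρ : ℝ)) := by positivity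
  have h0 : 0 < θ := by rw [hθdef]; linarith
  have h1 : θ < 1 := by rw [hθdef]; linarith
  have hθ : 1 - 1 / (Nat.factorial ρ : ℝ) ≤ θ ^ ρ := by
    have hB := one_add_mul_le_pow (a := -(1 / ((ρ : ℝ) * (Nat.factorial ρ : ℝ)))) (by linarith) ρ
    have e : 1 + (ρ : ℝ) * -(1 / ((ρ : ℝ) * (Nat.factorial ρ : ℝ)))
        = 1 - 1 / (Nat.factorial ρ : ℝ) := by
      have : (Nat.factorial ρ : ℝ) ≠ 0 := by positivity
      field_simp
      ring
    rw [e] at hB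
    exact hB
  -- choose the depth
  have hinvθ : 1 < θ⁻¹ := (one_lt_inv₀ h0).2 h1
  obtain ⟨K₀, hK₀⟩ := pow_unbounded_of_one_lt ((2 : ℝ) ^ ρ) hinvθ
  set K : ℕ := K₀ + N + 1 with hKdef
  have hK : (2 : ℝ) ^ ρ < θ⁻¹ ^ K :=
    lt_of_lt_of_le hK₀ (pow_le_pow_right₀ hinvθ.le (by omega))
  obtain ⟨ι, hι, P, hP, hcard, hZ⟩ :=
    exists_family hk ρ (by omega) h0 h1.le hθ K (θ⁻¹ ^ K) (by positivity)
  refine ⟨ι, hι, P, hP, ?_, fun W hW => ?_⟩
  · rw [hcard]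
    calc N ≤ K := by omega
      _ ≤ ρ ^ K := (Nat.lt_pow_self (by omega)).le
  · by_contra hcon
    push Not at hcon
    rw [hcard] at hcon
    have hone : θ⁻¹ ^ K * θ ^ K = 1 := by
      rw [← mul_pow, inv_mul_cancel₀ h0.ne', one_pow]
    rw [hone] at hZ
    set m : ℕ := ρ ^ (K - 1) with hm
    have hmpos : 0 < m := by positivity
    have hKm : ρ ^ K = ρ * m := by
      rw [hm, ← pow_succ']
      congr 1
    have hWm : (k + 1) * m ≤ W.card := by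
      have h2 : ((k : ℝ) + 1) * m ≤ W.card := by
        refine le_trans ?_ hcon
        push_cast
        have : ((ρ : ℝ)) ^ K = ρ * m := by exact_mod_cast hKm
        rw [this]
        have hm' : (0 : ℝ) ≤ m := Nat.cast_nonneg m
        nlinarith
      exact_mod_cast h2
    have hZW : (θ⁻¹ ^ K) ^ W.card ≤ Z k P (θ⁻¹ ^ K) := by
      unfold Z
      have := Finset.single_le_sum (f := fun W : Finset ι =>
        if Indep k P W then (θ⁻¹ ^ K) ^ W.card else 0) (s := Finset.univ)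
        (fun V _ => by positivity) (Finset.mem_univ W)
      simpa [hW] using this
    have hbase : 1 ≤ θ⁻¹ ^ K := one_le_pow₀ hinvθ.le
    have h3 : (θ⁻¹ ^ K) ^ ((k + 1) * m) ≤ Z k P (θ⁻¹ ^ K) :=
      (pow_le_pow_right₀ hbase hWm).trans hZW
    have h4 : θ ^ (k * K * m) * (θ⁻¹ ^ K) ^ ((k + 1) * m) ≤ (1 + 1) ^ (ρ ^ K) :=
      (mul_le_mul_of_nonneg_left h3 (by positivity)).trans hZ
    have h5 : θ ^ (k * K * m) * (θ⁻¹ ^ K) ^ ((k + 1) * m) = (θ⁻¹ ^ K) ^ m := by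
      have e1 : θ ^ (k * K * m) = (θ ^ K) ^ (k * m) := by
        rw [← pow_mul]; congr 1; ring
      have e2 : (θ⁻¹ ^ K) ^ ((k + 1) * m) = (θ⁻¹ ^ K) ^ (k * m) * (θ⁻¹ ^ K) ^ m := by
        rw [← pow_add]; congr 1; ring
      rw [e1, e2, ← mul_assoc, ← mul_pow, mul_comm (θ ^ K), hone, one_pow, one_mul]
    rw [h5, hKm, pow_mul] at h4
    have h6 : θ⁻¹ ^ K ≤ (1 + 1) ^ ρ :=
      le_of_pow_le_pow_left₀ hmpos.ne' (by positivity) h4
    norm_num at h6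
    norm_num at hK
    linarith

end Pool.Agent.Helper553_BL
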