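import Mathlib

/-!
# Cutting subfamilies of planar families by axis-parallel ellipses, and the recursive step

From a planar family `P` indexed by `ι` and permutations `π i` of `Fin ρ`, one for each `i : ι`, we form the
family on `Fin ρ × ι` made of `ρ` far apart columns, each nearly a copy of `P`, where the points `(c, i)`,
`c : Fin ρ`, of row `i` are in the vertical order given by `π i`.
-/

set_option autoImplicit false

namespace Pool.Agent.Helper553_BL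

open Filter Topology

/-- The members of the family `P` with index in `S` are strictly inside, and all others are strictly outside,
some axis-parallel ellipse. -/
def Cut {ι : Type} (P : ι → ℝ × ℝ) (S : Finset ι) : Prop :=
  ∃ A B x y h : ℝ, 0 < A ∧ 0 < B ∧
    (∀ i ∈ S, A * ((P i).1 - x) ^ 2 + B * ((P i).2 - y) ^ 2 < h) ∧
    ∀ i, i ∉ S → h < A * ((P i).1 - x) ^ 2 + B * ((P i).2 - y) ^ 2

/-- The new family. -/
def step {ι : Type} {ρ : ℕ} (P : ι → ℝ × ℝ) (π : ι → Equiv.Perm (Fin ρ)) (ε : ℝ) :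
    Fin ρ × ι → ℝ × ℝ :=
  fun q => (((q.1 : ℕ) : ℝ) + ε * (P q.2).1, (P q.2).2 + ε * ((π q.2 q.1 : ℕ) : ℝ))

variable {ι : Type} {ρ : ℕ}

lemma tendsto_eps : Tendsto (fun ε : ℝ => ε) (𝓝[>] 0) (𝓝 0) :=
  tendsto_nhdsWithin_of_tendsto_nhds tendsto_id

lemma tendsto_inv_sq {a : ℝ} (ha : 0 < a) :
    Tendsto (fun ε : ℝ => a * (ε⁻¹) ^ 2) (𝓝[>] 0) atTop := by
  have h := tendsto_inv_nhdsGT_zero (𝕜 := ℝ)
  exact ((tendsto_pow_atTop (by norm_num : (2 : ℕ) ≠ 0)).comp h).const_mul_atTop ha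

/-- A quantity that tends to a nonzero number, blown up, is eventually large. -/
lemma eventually_large {u : ℝ → ℝ} {s A h : ℝ} (hu : Tendsto u (𝓝[>] 0) (𝓝 s)) (hs : s ≠ 0)
    (hA : 0 < A) : ∀ᶠ ε in 𝓝[>] (0 : ℝ), h < A * (ε⁻¹ * u ε) ^ 2 := by
  have h1 : Tendsto (fun ε : ℝ => (u ε) ^ 2 * (A * (ε⁻¹) ^ 2)) (𝓝[>] 0) atTop :=
    Tendsto.pos_mul_atTop (by positivity : 0 < s ^ 2) (hu.pow 2) (tendsto_inv_sq hA)
  filter_upwards [h1.eventually_gt_atTop h] with ε hε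
  calc h < (u ε) ^ 2 * (A * (ε⁻¹) ^ 2) := hε
    _ = A * (ε⁻¹ * u ε) ^ 2 := by ring

open Classical in
/-- Cut sets of `P` survive in each column. -/
lemma cut_col (P : ι → ℝ × ℝ) (π : ι → Equiv.Perm (Fin ρ)) (S : Finset ι) (hS : Cut P S)
    [Finite ι] (c : Fin ρ) :
    ∀ᶠ ε in 𝓝[>] (0 : ℝ), Cut (step P π ε) (S.map ⟨fun i => (c, i), fun _ _ h => by simpa using h⟩) := by
  obtain ⟨A, B, x, y, h, hA, hB, hin, hout⟩ := hS
  have hpos : ∀ᶠ ε in 𝓝[>] (0 : ℝ), 0 < ε := eventually_mem_nhdsWithin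
  have hy : ∀ (c' : Fin ρ) (i : ι), Tendsto (fun ε : ℝ =>
      B * ((P i).2 + ε * ((π i c' : ℕ) : ℝ) - y) ^ 2) (𝓝[>] 0) (𝓝 (B * ((P i).2 - y) ^ 2)) := by
    intro c' i
    have h1 : Tendsto (fun ε : ℝ => B * ((P i).2 + ε * ((π i c' : ℕ) : ℝ) - y) ^ 2) (𝓝 0)
        (𝓝 (B * ((P i).2 + 0 * ((π i c' : ℕ) : ℝ) - y) ^ 2)) := by
      refine Continuous.tendsto ?_ _
      fun_prop
    rw [zero_mul, add_zero] at h1
    exact tendsto_nhdsWithin_of_tendsto_nhds h1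
  have e1 : ∀ᶠ ε in 𝓝[>] (0 : ℝ), ∀ i ∈ S,
      A * ((P i).1 - x) ^ 2 + B * ((P i).2 + ε * ((π i c : ℕ) : ℝ) - y) ^ 2 < h := by
    rw [eventually_all]
    intro i
    by_cases hi : i ∈ S
    · have ht := (hy c i).const_add (A * ((P i).1 - x) ^ 2)
      filter_upwards [ht.eventually (gt_mem_nhds (hin i hi))] with ε hε _
      exact hε
    · exact Eventually.of_forall fun ε h' => absurd h' hi
  have e2 : ∀ᶠ ε in 𝓝[>] (0 : ℝ), ∀ i, i ∉ S →
      h < A * ((P i).1 - x) ^ 2 + B * ((P i).2 + ε * ((π i c : ℕ) : ℝ) - y) ^ 2 := by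
    rw [eventually_all]
    intro i
    by_cases hi : i ∉ S
    · have ht := (hy c i).const_add (A * ((P i).1 - x) ^ 2)
      filter_upwards [ht.eventually (lt_mem_nhds (hout i hi))] with ε hε _
      exact hε
    · exact Eventually.of_forall fun ε h' => absurd h' hi
  have e3 : ∀ᶠ ε in 𝓝[>] (0 : ℝ), ∀ q : Fin ρ × ι, q.1 ≠ c →
      h < A * (ε⁻¹ * ((((q.1 : ℕ) : ℝ) - ((c : ℕ) : ℝ)) + ε * ((P q.2).1 - x))) ^ 2 := by
    rw [eventually_all]
    intro q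
    by_cases hq : q.1 ≠ c
    · have hs : (((q.1 : ℕ) : ℝ) - ((c : ℕ) : ℝ)) ≠ 0 := by
        rw [sub_ne_zero]
        intro h
        exact hq (Fin.ext (by exact_mod_cast h))
      have hu : Tendsto (fun ε : ℝ => (((q.1 : ℕ) : ℝ) - ((c : ℕ) : ℝ)) + ε * ((P q.2).1 - x))
          (𝓝[>] 0) (𝓝 (((q.1 : ℕ) : ℝ) - ((c : ℕ) : ℝ))) := by
        simpa using tendsto_const_nhds.add (tendsto_eps.mul_const ((P q.2).1 - x))
      filter_upwards [eventually_large (h := h) hu hs hA] with ε hε _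
      exact hε
    · exact Eventually.of_forall fun ε h' => absurd h' hq
  filter_upwards [e1, e2, e3, hpos] with ε h1 h2 h3 hε
  have key : ∀ q : Fin ρ × ι, A * (ε⁻¹) ^ 2 * ((step P π ε q).1 - (((c : ℕ) : ℝ) + ε * x)) ^ 2
      = A * (ε⁻¹ * ((((q.1 : ℕ) : ℝ) - ((c : ℕ) : ℝ)) + ε * ((P q.2).1 - x))) ^ 2 := by
    intro q
    simp only [step]
    ring
  have key' : ∀ q : Fin ρ × ι, q.1 = c →
      A * (ε⁻¹) ^ 2 * ((step P π ε q).1 - (((c : ℕ) : ℝ) + ε * x)) ^ 2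
        = A * ((P q.2).1 - x) ^ 2 := by
    intro q hq
    rw [key, hq, sub_self, zero_add, ← mul_assoc, inv_mul_cancel₀ hε.ne', one_mul]
  refine ⟨A * (ε⁻¹) ^ 2, B, ((c : ℕ) : ℝ) + ε * x, y, h, by positivity, hB, ?_, ?_⟩
  · intro q hq
    rw [Finset.mem_map] at hq
    obtain ⟨i, hi, rfl⟩ := hq
    rw [key' _ rfl]
    exact h1 i hi
  · intro q hq
    by_cases hc : q.1 = c
    · have hi : q.2 ∉ S := by
        intro hi
        apply hq
        rw [Finset.mem_map]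
        exact ⟨q.2, hi, by rw [← hc]; rfl⟩
      rw [key' _ hc]
      have := h2 q.2 hi
      rw [← hc] at this
      exact this
    · rw [key]
      have h4 := h3 q hc
      have h5 : 0 ≤ B * ((step P π ε q).2 - y) ^ 2 := by positivity
      linarith

open Classical in
/-- In each row the `k` lowest points are cut out. -/
lemma cut_row {k : ℕ} (hk : 1 ≤ k) (P : ι → ℝ × ℝ) (π : ι → Equiv.Perm (Fin ρ)) [Finite ι]
    (hP : Function.Injective fun i => (P i).2) (i : ι) (S : Finset (Fin ρ × ι))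
    (hS : ∀ q, q ∈ S ↔ q.2 = i ∧ (π i q.1 : ℕ) < k) :
    ∀ᶠ ε in 𝓝[>] (0 : ℝ), Cut (step P π ε) S := by
  have hpos : ∀ᶠ ε in 𝓝[>] (0 : ℝ), 0 < ε := eventually_mem_nhdsWithin
  set A : ℝ := 1 / (2 * ((ρ : ℝ) + 1) ^ 2) with hA
  have hA0 : 0 < A := by positivity
  set h : ℝ := ((k : ℝ) - 1) ^ 2 + 1 / 2 with hh
  have hk' : (1 : ℝ) ≤ k := by exact_mod_cast hk
  have hx : ∀ q : Fin ρ × ι, Tendsto (fun ε : ℝ => A * (((q.1 : ℕ) : ℝ) + ε * (P q.2).1 - 0) ^ 2)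
      (𝓝[>] 0) (𝓝 (A * ((q.1 : ℕ) : ℝ) ^ 2)) := by
    intro q
    have h1 : Tendsto (fun ε : ℝ => A * (((q.1 : ℕ) : ℝ) + ε * (P q.2).1 - 0) ^ 2) (𝓝 0)
        (𝓝 (A * (((q.1 : ℕ) : ℝ) + 0 * (P q.2).1 - 0) ^ 2)) := by
      refine Continuous.tendsto ?_ _
      fun_prop
    rw [zero_mul, add_zero, sub_zero] at h1
    exact tendsto_nhdsWithin_of_tendsto_nhds h1
  have hAc : ∀ c : Fin ρ, A * ((c : ℕ) : ℝ) ^ 2 < 1 / 2 := by
    intro c
    have h1 : ((c : ℕ) : ℝ) < (ρ : ℝ) + 1 := by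
      have : ((c : ℕ) : ℝ) < ρ := by exact_mod_cast c.2
      linarith
    have h2 : ((c : ℕ) : ℝ) ^ 2 < ((ρ : ℝ) + 1) ^ 2 :=
      pow_lt_pow_left₀ h1 (Nat.cast_nonneg _) (by norm_num)
    have h3 : 0 < ((ρ : ℝ) + 1) ^ 2 := by positivity
    rw [hA, div_mul_eq_mul_div, one_mul, div_lt_div_iff₀ (by positivity) (by norm_num)]
    linarith
  have e1 : ∀ᶠ ε in 𝓝[>] (0 : ℝ), ∀ q ∈ S,
      A * (((q.1 : ℕ) : ℝ) + ε * (P q.2).1 - 0) ^ 2 + ((π i q.1 : ℕ) : ℝ) ^ 2 < h := by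
    rw [eventually_all]
    intro q
    by_cases hq : q ∈ S
    · have ht := (hx q).add_const (((π i q.1 : ℕ) : ℝ) ^ 2)
      have h1 : ((π i q.1 : ℕ) : ℝ) ≤ (k : ℝ) - 1 := by
        have h2 : (π i q.1 : ℕ) + 1 ≤ k := ((hS q).1 hq).2
        have h3 : ((π i q.1 : ℕ) : ℝ) + 1 ≤ k := by exact_mod_cast h2
        linarith
      have h2 : ((π i q.1 : ℕ) : ℝ) ^ 2 ≤ ((k : ℝ) - 1) ^ 2 :=
        pow_le_pow_left₀ (Nat.cast_nonneg _) h1 2
      have h3 : A * ((q.1 : ℕ) : ℝ) ^ 2 + ((π i q.1 : ℕ) : ℝ) ^ 2 < h := by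
        have := hAc q.1
        rw [hh]
        linarith
      filter_upwards [ht.eventually (gt_mem_nhds h3)] with ε hε _
      exact hε
    · exact Eventually.of_forall fun ε h' => absurd h' hq
  have e2 : ∀ᶠ ε in 𝓝[>] (0 : ℝ), ∀ q : Fin ρ × ι, q.2 ≠ i →
      h < 1 * (ε⁻¹ * (((P q.2).2 - (P i).2) + ε * ((π q.2 q.1 : ℕ) : ℝ))) ^ 2 := by
    rw [eventually_all]
    intro q
    by_cases hq : q.2 ≠ i
    · have hs : ((P q.2).2 - (P i).2) ≠ 0 := sub_ne_zero.2 fun h => hq (hP h)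
      have hu : Tendsto (fun ε : ℝ => ((P q.2).2 - (P i).2) + ε * ((π q.2 q.1 : ℕ) : ℝ))
          (𝓝[>] 0) (𝓝 ((P q.2).2 - (P i).2)) := by
        simpa using tendsto_const_nhds.add (tendsto_eps.mul_const ((π q.2 q.1 : ℕ) : ℝ))
      filter_upwards [eventually_large (h := h) hu hs one_pos] with ε hε _
      exact hε
    · exact Eventually.of_forall fun ε h' => absurd h' hq
  filter_upwards [e1, e2, hpos] with ε h1 h2 hε
  have key : ∀ q : Fin ρ × ι, (ε⁻¹) ^ 2 * ((step P π ε q).2 - (P i).2) ^ 2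
      = 1 * (ε⁻¹ * (((P q.2).2 - (P i).2) + ε * ((π q.2 q.1 : ℕ) : ℝ))) ^ 2 := by
    intro q
    simp only [step]
    ring
  have key' : ∀ q : Fin ρ × ι, q.2 = i →
      (ε⁻¹) ^ 2 * ((step P π ε q).2 - (P i).2) ^ 2 = ((π i q.1 : ℕ) : ℝ) ^ 2 := by
    intro q hq
    rw [key, hq, sub_self, zero_add, ← mul_assoc, inv_mul_cancel₀ hε.ne']
    ring
  refine ⟨A, (ε⁻¹) ^ 2, 0, (P i).2, h, hA0, by positivity, ?_, ?_⟩
  · intro q hq
    rw [key' q ((hS q).1 hq).1]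
    exact h1 q hq
  · intro q hq
    have h5 : 0 ≤ A * ((step P π ε q).1 - 0) ^ 2 := by positivity
    by_cases hc : q.2 = i
    · have hi : k ≤ (π i q.1 : ℕ) := by
        by_contra hcon
        exact hq ((hS q).2 ⟨hc, by omega⟩)
      rw [key' q hc]
      have h3 : (k : ℝ) ≤ ((π i q.1 : ℕ) : ℝ) := by exact_mod_cast hi
      have h4 : (k : ℝ) ^ 2 ≤ ((π i q.1 : ℕ) : ℝ) ^ 2 := pow_le_pow_left₀ (by linarith) h3 2
      rw [hh]
      nlinarith
    · have h4 := h2 q hc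
      rw [← key] at h4
      linarith

/-- The second coordinates stay distinct. -/
lemma inj_step (P : ι → ℝ × ℝ) (π : ι → Equiv.Perm (Fin ρ)) [Finite ι]
    (hP : Function.Injective fun i => (P i).2) :
    ∀ᶠ ε in 𝓝[>] (0 : ℝ), Function.Injective fun q => (step P π ε q).2 := by
  have hpos : ∀ᶠ ε in 𝓝[>] (0 : ℝ), 0 < ε := eventually_mem_nhdsWithin
  have h : ∀ᶠ ε in 𝓝[>] (0 : ℝ), ∀ q q' : Fin ρ × ι, q.2 ≠ q'.2 →
      (step P π ε q).2 ≠ (step P π ε q').2 := by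
    rw [eventually_all]
    intro q
    rw [eventually_all]
    intro q'
    by_cases hq : q.2 = q'.2
    · exact Eventually.of_forall fun ε h => absurd hq h
    · have ht : Tendsto (fun ε => (step P π ε q).2 - (step P π ε q').2) (𝓝[>] 0)
          (𝓝 ((P q.2).2 - (P q'.2).2)) := by
        have := (tendsto_const_nhds (x := (P q.2).2)).add
          (tendsto_eps.mul_const ((π q.2 q.1 : ℕ) : ℝ))
        have h2 := (tendsto_const_nhds (x := (P q'.2).2)).add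
          (tendsto_eps.mul_const ((π q'.2 q'.1 : ℕ) : ℝ))
        simpa [step] using this.sub h2
      have hne : (P q.2).2 - (P q'.2).2 ≠ 0 := sub_ne_zero.2 fun h => hq (hP h)
      filter_upwards [ht.eventually_ne hne] with ε hε _
      exact sub_ne_zero.1 hε
  filter_upwards [h, hpos] with ε h hε
  intro q q' hqq
  simp only at hqq
  by_cases hq : q.2 = q'.2
  · obtain ⟨c, i⟩ := q
    obtain ⟨c', i'⟩ := q'
    simp only at hq
    subst hq
    simp only [step] at hqq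
    have h1 : ε * ((π i c : ℕ) : ℝ) = ε * ((π i c' : ℕ) : ℝ) := by linarith
    have h2 := mul_left_cancel₀ hε.ne' h1
    have h3 : c = c' := (π i).injective (Fin.ext (by exact_mod_cast h2))
    rw [h3]
  · exact absurd hqq (h q q' hq)

end Pool.Agent.Helper553_BL
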